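import Pool.Agent.J4.H49.EF.Win

/-! All but finitely many representations of `1` as a sum of distinct unit fractions (at least two of
them) have two consecutive denominators at distance at least `3`. -/

set_option autoImplicit false

namespace Pool.Agent.Results.MP_1ea053_nt.AllButFinitelyMany

/-- Only finitely many finite sets `S` of positive integers, with at least two elements and with
`∑ 1 / x = 1`, have no two consecutive elements `x < y` with `y - x ≥ 3`. -/
theorem result : {S : Finset ℕ | 2 ≤ S.card ∧ 0 ∉ S ∧ ∑ x ∈ S, (1 / (x : ℚ)) = 1 ∧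
    ¬ ∃ x ∈ S, ∃ y ∈ S, x + 3 ≤ y ∧ ∀ z ∈ S, z ≤ x ∨ y ≤ z}.Finite := by
  refine Pool.Agent.J4.H49.EF.main.subset ?_
  rintro S ⟨h1, h2, h3, h4⟩
  exact ⟨⟨h1, h2, h3⟩, h4⟩

end Pool.Agent.Results.MP_1ea053_nt.AllButFinitelyMany
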